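import Pool.Agent.H30.VGH.Targets
import Pool.Agent.H22.VGH.Ge

/-!
# MP_70ba79_ag: module MM1, moving Mason for squarefree polynomials
-/

set_option autoImplicit false

namespace Pool.Agent.H65.VGH

open SC Pool.Agent.H27.LV Polynomial Pool.Agent.H30.VGH

theorem pf_MM1 (hSYL : T_SYL) (hCDP : T_CDP) (hMLO : T_MLO) (hMSM : T_MSM) (hDG3 : T_DG3)
    (hRTB : T_RTB) (hRIC : T_RIC) (hJQN : T_JQN) (hJQB : T_JQB) (hDOR : T_DOR) (hKER : T_KER) :
    T_MM1 := by
  classical
  intro k K _ _ _ _ _ _ htr D hD S r p τ a b hr hp hpr hcop ha hb hCp hpτ hout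
  have : CharZero K := charZero_of_injective_algebraMap (algebraMap k K).injective
  obtain ⟨ρ, hρ, hρv, hw⟩ := hSYL k K r p (by omega) hp hpr hcop
  have ha0 : ∀ v : DV k K, (0 : ℤ) ≤ (a v : ℤ) := fun v => Int.natCast_nonneg _
  obtain ⟨c1, -, -, -, -, c6⟩ := hCDP k K D
  -- `w = 1`
  obtain ⟨A, B, hA, hB, hAB, hABv⟩ := hw 1 (by simp)
  -- `w = - cD D p`
  have hdeg : (-(cD D p)).natDegree ≤ 2 * r - 2 := by
    rw [natDegree_neg]
    have : (cD D p).natDegree ≤ r := by
      rw [natDegree_le_iff_coeff_eq_zero]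
      intro i hi
      rw [c1, coeff_eq_zero_of_natDegree_lt (by rw [hpr]; exact hi), map_zero]
    omega
  obtain ⟨E, B₁, hE, hB₁, hEB, hEBv⟩ := hw (-(cD D p)) hdeg
  have hEB' : E * p + B₁ * derivative p = -(C ρ * cD D p) := by rw [hEB]; ring
  have hAB' : A * p + B * derivative p = C ρ := by rw [hAB, mul_one]
  have hEv : ∀ v : DV k K, Cge v (ordD v D - (2 * r + 2) * a v) E ∧
      Cge v (ordD v D - (2 * r + 2) * a v) B₁ := by
    intro v
    have h1 := c6 v (ordD v D) (a v) p (hDOR k K htr D hD v).2.1 (ha0 v) (hCp v)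
    have h2 := hEBv v (a v) (ordD v D - 2 * a v) (ha0 v) (hCp v)
      (Pool.Agent.H22.VGH.cneg h1)
    have e : ordD v D - 2 * (a v : ℤ) - 2 * r * a v = ordD v D - (2 * r + 2) * a v := by ring
    rw [e] at h2
    exact h2
  have hAv : ∀ v : DV k K, Cge v (-(2 * r * a v)) A ∧ Cge v (-(2 * r * a v)) B := by
    intro v
    have h2 := hABv v (a v) 0 (ha0 v) (hCp v) (Pool.Agent.H22.VGH.cone)
    have e : (0 : ℤ) - 2 * r * a v = -(2 * r * a v) := by ring
    rw [e] at h2
    exact h2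
  have hρv' : ∀ v : DV k K, ge v (-(2 * r * a v)) ρ := fun v => hρv v (a v) (ha0 v) (hCp v)
  -- nonnegative sums
  have sa : (0 : ℤ) ≤ ∑ᶠ v, (a v : ℤ) := finsum_nonneg ha0
  have sb : (0 : ℤ) ≤ ∑ᶠ v, (b v : ℤ) := finsum_nonneg fun v => Int.natCast_nonneg _
  have hr' : (3 : ℤ) ≤ r := by exact_mod_cast hr
  have hmul : ∀ x : ℤ, x ≤ 7 * r → x * ∑ᶠ v, (a v : ℤ) ≤ 7 * r * ∑ᶠ v, (a v : ℤ) := fun x hx =>
    mul_le_mul_of_nonneg_right hx sa
  have hS : (0 : ℤ) ≤ S.card := Int.natCast_nonneg _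
  by_cases hΩ : ρ * D τ - B₁.eval τ ≠ 0
  · have h := hMSM k K htr D hD S r p B₁ ρ τ a b hr hp ha hb hCp hpr hpτ hρ hρv' hΩ hout
      (fun v => hMLO k K v D (ordD v D) (hDOR k K htr D hD v).2.1 r p A B E B₁ ρ τ (a v) hr (ha0 v)
        hp hpr (hCp v) hpτ hρ (hρv' v) hA hB hAB' (hAv v).1 (hAv v).2 hE hB₁ hEB' (hEv v).1
        (hEv v).2)
    have := le_max_right (0 : ℤ) (canDeg D + S.card)
    linarith
  · push Not at hΩ
    have hΩ' : ρ * D τ = B₁.eval τ := sub_eq_zero.1 hΩ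
    by_cases h3 : 3 ≤ B₁.natDegree
    · have h := hDG3 k K htr D hD r B₁ ρ τ a hρ ha hρv' (fun v => (hEv v).2) h3 hΩ'
      have h1 := le_max_right (0 : ℤ) (canDeg D + S.card)
      have h2 := hmul (2 * r + 2) (by linarith)
      linarith
    · -- the Riccati equation
      have hC : (C ρ⁻¹ * C ρ : K[X]) = 1 := by rw [← C_mul, inv_mul_cancel₀ hρ, C_1]
      have hric := hRIC k K D (hKER k K htr D hD) r p (C ρ⁻¹ * B₁) (-(C ρ⁻¹ * E)) τ (by omega) hp
        hpr (by
          refine (natDegree_C_mul_le _ _).trans ?_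
          omega) (by
          have h1 : C ρ⁻¹ * (E * p + B₁ * derivative p) = -(C ρ⁻¹ * C ρ) * cD D p := by
            rw [hEB']; ring
          rw [hC] at h1
          linear_combination h1) (by
          rw [eval_mul, eval_C, ← hΩ', ← mul_assoc, inv_mul_cancel₀ hρ, one_mul])
      have key : ∀ g : K[X], g ≠ 0 → g.eval τ = 0 → (∀ v : DV k K, Cge v (-(6 * (a v : ℤ))) g) →
          ∑ᶠ v : DV k K, pe v τ ≤ 7 * r * ∑ᶠ v, (a v : ℤ) := by
        intro g hg hgτ hgv
        have h1 := hRTB k K htr g τ (fun v => 6 * a v) hg hgτ (by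
          refine ha.subset fun v hv => ?_
          simp only [Function.mem_support, ne_eq, mul_eq_zero, not_or] at hv ⊢
          exact hv.2) (fun v => by
            have := hgv v
            push_cast
            exact this)
        have h2 : ∑ᶠ v : DV k K, (((6 * a v : ℕ)) : ℤ) = 6 * ∑ᶠ v, (a v : ℤ) := by
          rw [mul_finsum]
          refine finsum_congr fun v => ?_
          push_cast
          ring
        rw [h2] at h1
        exact h1.trans (hmul 6 (by linarith))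
      have hfin : ∑ᶠ v : DV k K, pe v τ ≤ 7 * r * ∑ᶠ v, (a v : ℤ) := by
        rcases hric with h | ⟨z, hz⟩
        · obtain ⟨hh, -⟩ := hJQN K r p 0 hr hp hpr hcop ⟨0, by simp⟩
          exact key _ hh h fun v => (hJQB k K v (a v) r p 0 (ha0 v) (hCp v)).1
        · obtain ⟨w, hw⟩ := IsAlgClosed.exists_pow_nat_eq z (n := 2) (by norm_num)
          obtain ⟨-, hh⟩ := hJQN K r p (algebraMap k K z) hr hp hpr hcop
            ⟨algebraMap k K w, by rw [← map_mul, ← pow_two, hw]⟩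
          exact key _ hh hz fun v => (hJQB k K v (a v) r p z (ha0 v) (hCp v)).2
      have h1 := le_max_left (0 : ℤ) (canDeg D + S.card)
      linarith

end Pool.Agent.H65.VGH
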