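import Pool.Agent.H30.VGH.Targets
import Mathlib.RingTheory.Polynomial.Radical
import Mathlib.FieldTheory.Perfect

/-!
# MP_70ba79_ag: module RAD, the squarefree part; polynomials with at most two roots
-/

set_option autoImplicit false

namespace Pool.Agent.H65.VGH

open SC Pool.Agent.H27.LV Polynomial Pool.Agent.H30.VGH UniqueFactorizationMonoid

theorem pf_RAD : T_RAD := by
  classical
  intro K _ _ P hP
  have h0 : radical P ≠ 0 := radical_ne_zero
  have hl : (radical P).leadingCoeff ≠ 0 := leadingCoeff_ne_zero.2 h0
  set p : K[X] := radical P * C (radical P).leadingCoeff⁻¹ with hp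
  have hpm : p.Monic := monic_mul_leadingCoeff_inv h0
  have hu : IsUnit (C (radical P).leadingCoeff⁻¹ : K[X]) := isUnit_C.2 (isUnit_iff_ne_zero.2 (inv_ne_zero hl))
  have hpd : p ∣ radical P := by
    rw [hp]
    exact (hu.mul_right_dvd).2 dvd_rfl
  have hdp : radical P ∣ p := Dvd.intro _ rfl
  have hpP : p ∣ P := hpd.trans radical_dvd_self
  obtain ⟨q, hq⟩ := hpP
  have hq0 : q ≠ 0 := by
    rintro rfl
    exact hP (by rw [hq, mul_zero])
  have hlc : P.leadingCoeff = q.leadingCoeff := by
    rw [hq, leadingCoeff_mul, hpm.leadingCoeff, one_mul]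
  have hlq : q.leadingCoeff ≠ 0 := leadingCoeff_ne_zero.2 hq0
  have hsq : Squarefree p := (squarefree_radical (a := P)).squarefree_of_dvd hpd
  have hsep : p.Separable := PerfectField.separable_iff_squarefree.2 hsq
  refine ⟨q * C q.leadingCoeff⁻¹, p, monic_mul_leadingCoeff_inv hq0, hpm, ?_, hsep, ?_⟩
  · rw [hlc]
    have : (C q.leadingCoeff * C q.leadingCoeff⁻¹ : K[X]) = 1 := by
      rw [← C_mul, mul_inv_cancel₀ hlq, C_1]
    calc P = q * p := by rw [hq]; ring
      _ = (C q.leadingCoeff * C q.leadingCoeff⁻¹) * (q * p) := by rw [this, one_mul]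
      _ = _ := by ring
  · unfold nr
    have hr : P.rootSet (AlgebraicClosure K) = p.rootSet (AlgebraicClosure K) := by
      ext x
      rw [mem_rootSet, mem_rootSet]
      constructor
      · rintro ⟨-, h⟩
        refine ⟨hpm.ne_zero, ?_⟩
        obtain ⟨n, hn⟩ := exists_dvd_radical_self_pow hP
        obtain ⟨w, hw⟩ := hn
        have h1 : aeval x (radical P ^ n) = 0 := by rw [hw, map_mul, h, zero_mul]
        rw [map_pow] at h1
        have h2 : aeval x (radical P) = 0 := by
          rcases Nat.eq_zero_or_pos n with rfl | hn
          · simp at h1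
          · exact pow_eq_zero_iff (by omega) |>.1 h1
        obtain ⟨w', hw'⟩ := hdp
        rw [hw', map_mul, h2, zero_mul]
      · rintro ⟨-, h⟩
        exact ⟨hP, by rw [hq, map_mul, h, zero_mul]⟩
    rw [hr, ← card_rootSet_eq_natDegree (K := AlgebraicClosure K) hsep (IsAlgClosed.splits _), Set.ncard_eq_toFinset_card',
      Set.toFinset_card]

theorem pf_TWP : T_TWP := by
  classical
  intro K _ _ P d hd hPd hnr
  have hP : P ≠ 0 := by
    rintro rfl
    simp at hPd
    omega
  set Q := P.map (algebraMap K (AlgebraicClosure K)) with hQ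
  have hQd : Q.natDegree = d := by rw [hQ, natDegree_map, hPd]
  have hQl : Q.leadingCoeff = algebraMap K (AlgebraicClosure K) P.leadingCoeff := by
    rw [hQ, leadingCoeff_map]
  have hs : Q.Splits := IsAlgClosed.splits _
  have hcard : Multiset.card Q.roots = d := by rw [← hQd, hs.natDegree_eq_card_roots]
  have hprod := hs.eq_prod_roots
  have hset : ∀ T : Finset (AlgebraicClosure K), (∀ x ∈ T, x ∈ Q.roots) → T.card < 3 := by
    intro T hT
    refine lt_of_le_of_lt ?_ hnr
    unfold nr
    rw [← Set.ncard_coe_finset T]
    refine Set.ncard_le_ncard ?_ (P.rootSet_finite _)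
    intro x hx
    have := hT x hx
    rw [mem_rootSet]
    refine ⟨hP, ?_⟩
    have h2 := (mem_roots'.1 this).2
    rw [IsRoot, hQ, eval_map_algebraMap] at h2
    exact h2
  have hne : Q.roots ≠ 0 := by
    intro h
    rw [h] at hcard
    simp at hcard
    omega
  obtain ⟨α, hα⟩ := Multiset.exists_mem_of_ne_zero hne
  by_cases hall : ∀ β ∈ Q.roots, β = α
  · have hr : Q.roots = Multiset.replicate d α := by
      rw [Multiset.eq_replicate]
      exact ⟨hcard, hall⟩
    refine ⟨0, d - 2, α, α, by omega, ?_⟩
    rw [← hQl]
    conv_lhs => rw [hprod]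
    rw [hr, Multiset.map_replicate, Multiset.prod_replicate, ← pow_add]
    congr 2
    omega
  · push Not at hall
    obtain ⟨β, hβ, hne⟩ := hall
    have h2 : ∀ γ ∈ Q.roots, γ = α ∨ γ = β := by
      intro γ hγ
      by_contra hc
      push Not at hc
      have := hset {α, β, γ} (by
        intro x hx
        simp only [Finset.mem_insert, Finset.mem_singleton] at hx
        rcases hx with rfl | rfl | rfl
        · exact hα
        · exact hβ
        · exact hγ)
      rw [Finset.card_insert_of_notMem, Finset.card_insert_of_notMem, Finset.card_singleton] at this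
      · omega
      · simp only [Finset.mem_singleton]
        exact fun h => hc.2 h.symm
      · simp only [Finset.mem_insert, Finset.mem_singleton, not_or]
        exact ⟨fun h => hne h.symm, fun h => hc.1 h.symm⟩
    have hr : Q.roots = Multiset.replicate (Q.roots.count α) α +
        Multiset.replicate (Q.roots.count β) β := by
      ext γ
      rw [Multiset.count_add, Multiset.count_replicate, Multiset.count_replicate]
      by_cases h1 : α = γ
      · subst h1
        simp [hne]
      · by_cases h3 : β = γ
        · subst h3
          simp [h1]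
        · simp only [h1, h3, if_false, add_zero]
          rw [Multiset.count_eq_zero]
          intro hγ
          rcases h2 γ hγ with h | h
          · exact h1 h.symm
          · exact h3 h.symm
    have hca : 0 < Q.roots.count α := Multiset.count_pos.2 hα
    have hcb : 0 < Q.roots.count β := Multiset.count_pos.2 hβ
    have hsum : Q.roots.count α + Q.roots.count β = d := by
      rw [← hcard]
      conv_rhs => rw [hr]
      simp
    refine ⟨Q.roots.count α - 1, Q.roots.count β - 1, α, β, by omega, ?_⟩
    rw [← hQl]
    conv_lhs => rw [hprod, hr]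
    rw [Multiset.map_add, Multiset.prod_add, Multiset.map_replicate, Multiset.prod_replicate,
      Multiset.map_replicate, Multiset.prod_replicate]
    have e1 : Q.roots.count α - 1 + 1 = Q.roots.count α := by omega
    have e2 : Q.roots.count β - 1 + 1 = Q.roots.count β := by omega
    rw [e1, e2]

end Pool.Agent.H65.VGH
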